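import Mathlib

set_option autoImplicit false

open Metric Complex Set Filter Topology ComplexConjugate

namespace Pool.Agent.Results.MP_d2819f_an.SlitNotEnough

/-- `G` is convex in the direction of the imaginary axis: every vertical line meets `G` in a
connected (possibly empty) set. -/
def CIA (G : Set ℂ) : Prop := ∀ c : ℝ, IsPreconnected (G ∩ {w | w.re = c})

/-! ### the map `W(m) = (m - 1/m)/2` of the first quadrant -/

noncomputable def W (m : ℂ) : ℂ := (m - m⁻¹) / 2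

def quad : Set ℂ := {m | 0 < m.re ∧ 0 < m.im}

def Ω : Set ℂ := {w | 0 < w.im ∧ ¬ (w.re = 0 ∧ 1 ≤ w.im)}

lemma quad_ne {m : ℂ} (hm : m ∈ quad) : m ≠ 0 := by
  intro h
  have := hm.1
  rw [h] at this
  simp at this

lemma normSq_pos' {m : ℂ} (hm : m ∈ quad) : 0 < normSq m := normSq_pos.mpr (quad_ne hm)

lemma W_re (m : ℂ) : (W m).re = m.re * (1 - 1 / normSq m) / 2 := by
  unfold W
  have : ((m - m⁻¹) / 2 : ℂ).re = (m - m⁻¹).re / 2 := by
    rw [show (2 : ℂ) = ((2 : ℝ) : ℂ) by push_cast; ring, div_ofReal_re]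
  rw [this, sub_re, inv_re]
  ring

lemma W_im (m : ℂ) : (W m).im = m.im * (1 + 1 / normSq m) / 2 := by
  unfold W
  have : ((m - m⁻¹) / 2 : ℂ).im = (m - m⁻¹).im / 2 := by
    rw [show (2 : ℂ) = ((2 : ℝ) : ℂ) by push_cast; ring, div_ofReal_im]
  rw [this, sub_im, inv_im]
  ring

lemma W_mem {m : ℂ} (hm : m ∈ quad) : W m ∈ Ω := by
  have hn := normSq_pos' hm
  refine ⟨?_, ?_⟩
  · rw [W_im]
    have := hm.2
    positivity
  · rintro ⟨h1, h2⟩
    rw [W_re] at h1
    have h3 : 1 - 1 / normSq m = 0 := by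
      have := hm.1.ne'
      have h4 : m.re * (1 - 1 / normSq m) = 0 := by linarith
      rcases mul_eq_zero.mp h4 with h | h
      · exact absurd h this
      · exact h
    have h5 : 1 / normSq m = 1 := by linarith
    have h6 : normSq m = 1 := by
      field_simp at h5
      linarith
    rw [W_im, h5] at h2
    rw [normSq_apply] at h6
    have h7 : 1 ≤ m.im := by linarith
    nlinarith [hm.1, hm.2]

lemma W_injOn : InjOn W quad := by
  intro m hm n hn h
  have hm0 := quad_ne hm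
  have hn0 := quad_ne hn
  unfold W at h
  have h1 : (m - n) * (m * n + 1) = 0 := by
    field_simp at h
    linear_combination h
  rcases mul_eq_zero.mp h1 with h2 | h2
  · exact sub_eq_zero.mp h2
  · exfalso
    have h3 := congrArg im h2
    simp only [add_im, mul_im, one_im, zero_im, add_zero] at h3
    nlinarith [mul_pos hm.1 hn.2, mul_pos hm.2 hn.1]

lemma W_surj {w : ℂ} (hw : w ∈ Ω) : ∃ m ∈ quad, W m = w := by
  obtain ⟨r, hr⟩ := IsAlgClosed.exists_pow_nat_eq (w ^ 2 + 1) (n := 2) (by norm_num)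
  have key : ∀ m : ℂ, m ^ 2 - 2 * w * m - 1 = 0 → m ≠ 0 ∧ W m = w := by
    intro m hm
    have h0 : m ≠ 0 := by
      intro h
      rw [h] at hm
      norm_num at hm
    refine ⟨h0, ?_⟩
    unfold W
    field_simp
    linear_combination hm
  have h1 := key (w + r) (by linear_combination hr)
  have h2 := key (w - r) (by linear_combination hr)
  have him : ∀ m : ℂ, m ≠ 0 → W m = w → 0 < m.im := by
    intro m hm0 hm
    have h3 := hw.1
    rw [← hm, W_im] at h3
    have h4 : 0 < normSq m := normSq_pos.mpr hm0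
    by_contra hcon
    push Not at hcon
    have h5 : 0 < 1 + 1 / normSq m := by positivity
    nlinarith
  have i1 := him _ h1.1 h1.2
  have i2 := him _ h2.1 h2.2
  rcases lt_trichotomy (w + r).re 0 with h | h | h
  · refine ⟨w - r, ⟨?_, i2⟩, h2.2⟩
    -- (w+r)(w-r) = -1
    have h3 : (w + r) * (w - r) = -1 := by linear_combination -hr
    have h4 := congrArg im h3
    simp only [mul_im, neg_im, one_im, neg_zero] at h4
    by_contra hcon
    push Not at hcon
    nlinarith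
  · exfalso
    have h3 := W_re (w + r)
    rw [h, h1.2] at h3
    have h4 : w.re = 0 := by rw [h3]; ring
    apply hw.2
    refine ⟨h4, ?_⟩
    have h5 := W_im (w + r)
    rw [h1.2] at h5
    rw [h5, normSq_apply, h]
    have h6 : 0 < (w + r).im := i1
    have e : (w + r).im * (1 + 1 / (0 * 0 + (w + r).im * (w + r).im)) / 2 =
        ((w + r).im + 1 / (w + r).im) / 2 := by
      field_simp
      ring
    rw [e]
    have h7 : 2 ≤ (w + r).im + 1 / (w + r).im := by
      have : (w + r).im + 1 / (w + r).im - 2 = ((w + r).im - 1) ^ 2 / (w + r).im := by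
        field_simp
        ring
      have h8 : 0 ≤ ((w + r).im - 1) ^ 2 / (w + r).im := by positivity
      linarith
    linarith
  · exact ⟨w + r, ⟨h, i1⟩, h1.2⟩

/-! ### the square root -/

noncomputable def sq (v : ℂ) : ℂ := exp (log v / 2)

lemma sq_sq {v : ℂ} (hv : v ≠ 0) : sq v ^ 2 = v := by
  unfold sq
  rw [← exp_nat_mul]
  push_cast
  rw [mul_div_cancel₀ _ (two_ne_zero), exp_log hv]

lemma sq_mem {v : ℂ} (hv : 0 < v.im) : sq v ∈ quad := by
  have h1 : 0 < arg v := by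
    rcases lt_trichotomy (arg v) 0 with h | h | h
    · exact absurd (arg_neg_iff.mp h) (by linarith)
    · exact absurd (arg_eq_zero_iff.mp h).2 (by linarith)
    · exact h
  have h2 : arg v < Real.pi := by
    rcases lt_or_eq_of_le (arg_le_pi v) with h | h
    · exact h
    · exact absurd (arg_eq_pi_iff.mp h).2 (by linarith)
  have e1 : (log v / 2).re = (log v).re / 2 := by
    rw [show (2 : ℂ) = ((2 : ℝ) : ℂ) by push_cast; ring, div_ofReal_re]
  have e2 : (log v / 2).im = arg v / 2 := by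
    rw [show (2 : ℂ) = ((2 : ℝ) : ℂ) by push_cast; ring, div_ofReal_im, log_im]
  unfold sq
  refine ⟨?_, ?_⟩
  · rw [exp_re, e2]
    apply mul_pos (Real.exp_pos _)
    apply Real.cos_pos_of_mem_Ioo
    constructor <;> linarith [Real.pi_pos]
  · rw [exp_im, e2]
    apply mul_pos (Real.exp_pos _)
    apply Real.sin_pos_of_pos_of_lt_pi <;> linarith [Real.pi_pos]

lemma sq_im_pos {m : ℂ} (hm : m ∈ quad) : 0 < (m ^ 2).im := by
  rw [pow_two, mul_im]
  nlinarith [mul_pos hm.1 hm.2]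

lemma sq_of_quad {m : ℂ} (hm : m ∈ quad) : sq (m ^ 2) = m := by
  have h1 := sq_mem (sq_im_pos hm)
  have h2 := sq_sq (pow_ne_zero 2 (quad_ne hm))
  rcases sq_eq_sq_iff_eq_or_eq_neg.mp h2 with h | h
  · exact h
  · exfalso
    rw [h] at h1
    have := h1.1
    rw [neg_re] at this
    linarith [hm.1]

lemma hasDerivAt_sq {v : ℂ} (hv : 0 < v.im) : HasDerivAt sq ((2 * sq v)⁻¹) v := by
  have hs : v ∈ slitPlane := Or.inr hv.ne'
  have hv0 : v ≠ 0 := slitPlane_ne_zero hs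
  have h1 := ((hasDerivAt_log hs).div_const 2).cexp
  have e : (2 * sq v)⁻¹ = exp (log v / 2) * (v⁻¹ / 2) := by
    have h2 : exp (log v / 2) = sq v := rfl
    have h3 : sq v ≠ 0 := exp_ne_zero _
    have h4 := sq_sq hv0
    rw [h2]
    nth_rewrite 3 [← h4]
    field_simp
  rw [e]
  exact h1

/-! ### the Cayley map -/

noncomputable def m₀ : ℂ := ⟨1 / 10, 1 / 100⟩

noncomputable def v₀ : ℂ := ⟨99 / 10000, 1 / 500⟩

lemma m₀_mem : m₀ ∈ quad := by
  constructor <;> (unfold m₀; norm_num)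

lemma m₀_sq : m₀ ^ 2 = v₀ := by
  unfold m₀ v₀
  rw [pow_two]
  apply Complex.ext
  · rw [mul_re]; norm_num
  · rw [mul_im]; norm_num

/-- the conformal map of the disc onto the upper half plane, `0 ↦ v₀` -/
noncomputable def mob (e z : ℂ) : ℂ := (v₀ - conj v₀ * (e * z)) / (1 - e * z)

lemma ne_mob {e z : ℂ} (he : ‖e‖ = 1) (hz : ‖z‖ < 1) : 1 - e * z ≠ 0 := by
  intro h
  have h1 : e * z = 1 := by linear_combination -h
  have h2 := congrArg norm h1
  rw [norm_mul, he, one_mul, norm_one] at h2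
  linarith

lemma mob_im {e z : ℂ} (he : ‖e‖ = 1) (hz : ‖z‖ < 1) : 0 < (mob e z).im := by
  have hne := ne_mob he hz
  unfold mob
  have hζ : ‖e * z‖ < 1 := by rw [norm_mul, he, one_mul]; exact hz
  generalize e * z = ζ at hne hζ
  have hn : 0 < normSq (1 - ζ) := normSq_pos.mpr hne
  have h1 : ζ.re ^ 2 + ζ.im ^ 2 < 1 := by
    have : ζ.re ^ 2 + ζ.im ^ 2 = ‖ζ‖ ^ 2 := by
      rw [← normSq_eq_norm_sq, normSq_apply]; ring
    rw [this]
    nlinarith [norm_nonneg ζ]
  rw [div_im]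
  have e1 : (v₀ - conj v₀ * ζ).im * (1 - ζ).re / normSq (1 - ζ) -
      (v₀ - conj v₀ * ζ).re * (1 - ζ).im / normSq (1 - ζ) =
      (1 / 500) * (1 - (ζ.re ^ 2 + ζ.im ^ 2)) / normSq (1 - ζ) := by
    rw [← sub_div]
    congr 1
    simp only [sub_re, sub_im, mul_re, mul_im, conj_re, conj_im, one_re, one_im]
    unfold v₀
    ring
  rw [e1]
  apply div_pos _ hn
  linarith

lemma mob_zero (e : ℂ) : mob e 0 = v₀ := by
  unfold mob
  simp

lemma hasDerivAt_mob {e z : ℂ} (he : ‖e‖ = 1) (hz : ‖z‖ < 1) :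
    HasDerivAt (mob e) (e * (v₀ - conj v₀) / (1 - e * z) ^ 2) z := by
  have hne := ne_mob he hz
  have h1 : HasDerivAt (fun w : ℂ => v₀ - conj v₀ * (e * w)) (-(conj v₀ * e)) z := by
    have := (((hasDerivAt_id z).const_mul e).const_mul (conj v₀)).const_sub v₀
    simpa using this
  have h2 : HasDerivAt (fun w : ℂ => 1 - e * w) (-e) z := by
    simpa using ((hasDerivAt_id z).const_mul e).const_sub 1
  have h3 := h1.div h2 hne
  have e1 : e * (v₀ - conj v₀) / (1 - e * z) ^ 2 =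
      (-(conj v₀ * e) * (1 - e * z) - (v₀ - conj v₀ * (e * z)) * -e) / (1 - e * z) ^ 2 := by
    congr 1
    ring
  rw [e1]
  exact h3

/-- the inverse of `mob` -/
noncomputable def bom (e v : ℂ) : ℂ := conj e * ((v - v₀) / (v - conj v₀))

lemma ne_bom {v : ℂ} (hv : 0 < v.im) : v - conj v₀ ≠ 0 := by
  intro h
  have h1 := congrArg im h
  rw [sub_im, conj_im, zero_im] at h1
  unfold v₀ at h1
  simp only at h1
  linarith

lemma conj_mul_self' {e : ℂ} (he : ‖e‖ = 1) : e * conj e = 1 := by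
  rw [mul_conj, normSq_eq_norm_sq, he]
  norm_num

lemma v₀_ne : v₀ - conj v₀ ≠ 0 := by
  intro h
  have h1 := congrArg im h
  rw [sub_im, conj_im, zero_im] at h1
  unfold v₀ at h1
  norm_num at h1

lemma mob_bom {e v : ℂ} (he : ‖e‖ = 1) (hv : 0 < v.im) : mob e (bom e v) = v := by
  unfold mob bom
  have hx : e * (conj e * ((v - v₀) / (v - conj v₀))) = (v - v₀) / (v - conj v₀) := by
    rw [← mul_assoc, conj_mul_self' he, one_mul]
  rw [hx]
  have h1 := ne_bom hv
  have h2 : 1 - (v - v₀) / (v - conj v₀) ≠ 0 := by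
    rw [one_sub_div h1]
    apply div_ne_zero _ h1
    have : v - conj v₀ - (v - v₀) = v₀ - conj v₀ := by ring
    rw [this]
    exact v₀_ne
  rw [div_eq_iff h2]
  field_simp
  ring

lemma bom_norm {e v : ℂ} (he : ‖e‖ = 1) (hv : 0 < v.im) :
    ‖bom e v‖ ^ 2 = 1 - (1 / 125) * (v.im / normSq (v - conj v₀)) := by
  unfold bom
  rw [norm_mul, Complex.norm_conj, he, one_mul, norm_div, div_pow, ← normSq_eq_norm_sq,
    ← normSq_eq_norm_sq]
  have hn : 0 < normSq (v - conj v₀) := normSq_pos.mpr (ne_bom hv)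
  rw [div_eq_iff hn.ne', sub_mul, one_mul, mul_assoc, div_mul_cancel₀ _ hn.ne']
  rw [normSq_apply, normSq_apply]
  simp only [sub_re, sub_im, conj_re, conj_im]
  unfold v₀
  ring

lemma bom_lt {e v : ℂ} (he : ‖e‖ = 1) (hv : 0 < v.im) : ‖bom e v‖ < 1 := by
  have h := bom_norm he hv
  have hn : 0 < normSq (v - conj v₀) := normSq_pos.mpr (ne_bom hv)
  have : 0 < v.im / normSq (v - conj v₀) := div_pos hv hn
  nlinarith [norm_nonneg (bom e v)]

lemma bom_mob {e z : ℂ} (he : ‖e‖ = 1) (hz : ‖z‖ < 1) : bom e (mob e z) = z := by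
  have h1 := ne_mob he hz
  unfold bom mob
  have h2 : (v₀ - conj v₀ * (e * z)) / (1 - e * z) - conj v₀ = (v₀ - conj v₀) / (1 - e * z) := by
    rw [div_sub' h1]
    congr 1
    ring
  have h3 : (v₀ - conj v₀ * (e * z)) / (1 - e * z) - v₀ = (v₀ - conj v₀) * (e * z) / (1 - e * z) := by
    rw [div_sub' h1]
    congr 1
    ring
  rw [h2, h3, div_div_div_cancel_right₀ h1, mul_div_cancel_left₀ _ v₀_ne, ← mul_assoc,
    mul_comm (conj e), conj_mul_self' he, one_mul]

/-! ### the function -/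

noncomputable def W₀ : ℂ := W m₀

/-- the derivative of `W ∘ sq ∘ mob` at the origin, up to the factor `e` -/
noncomputable def D₀ : ℂ := (v₀ - conj v₀) * (2 * m₀)⁻¹ * ((1 + (m₀ ^ 2)⁻¹) / 2)

lemma D₀_ne : D₀ ≠ 0 := by
  unfold D₀
  have h1 := quad_ne m₀_mem
  have h2 : 1 + (m₀ ^ 2)⁻¹ ≠ 0 := by
    intro h
    have h3 : m₀ ^ 2 = -1 := by
      have h4 : m₀ ^ 2 ≠ 0 := pow_ne_zero 2 h1
      field_simp at h
      linear_combination h
    have h4 := sq_im_pos m₀_mem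
    rw [h3] at h4
    simp at h4
  exact mul_ne_zero (mul_ne_zero v₀_ne (inv_ne_zero (mul_ne_zero two_ne_zero h1)))
    (div_ne_zero h2 two_ne_zero)

noncomputable def e₀ : ℂ := conj D₀ / ‖D₀‖

noncomputable def C : ℝ := ‖D₀‖⁻¹

lemma C_pos : 0 < C := inv_pos.mpr (norm_pos_iff.mpr D₀_ne)

lemma norm_e₀ : ‖e₀‖ = 1 := by
  unfold e₀
  rw [norm_div, Complex.norm_conj, norm_real, norm_norm, div_self (norm_ne_zero_iff.mpr D₀_ne)]

lemma e₀_mul : (C : ℂ) * (e₀ * D₀) = 1 := by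
  unfold e₀ C
  have h : (‖D₀‖ : ℂ) ≠ 0 := by exact_mod_cast norm_ne_zero_iff.mpr D₀_ne
  rw [div_mul_eq_mul_div, ← normSq_eq_conj_mul_self, normSq_eq_norm_sq]
  push_cast
  field_simp

/-- the function -/
noncomputable def f (z : ℂ) : ℂ := C * (W (sq (mob e₀ z)) - W₀)

lemma hasDerivAt_W {m : ℂ} (hm : m ≠ 0) : HasDerivAt W ((1 + (m ^ 2)⁻¹) / 2) m := by
  have h := ((hasDerivAt_id m).sub (hasDerivAt_inv hm)).div_const 2
  have e : (1 + (m ^ 2)⁻¹) / 2 = (1 - -(m ^ 2)⁻¹) / 2 := by ring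
  rw [e]
  exact h

lemma hasDerivAt_f {z : ℂ} (hz : ‖z‖ < 1) : HasDerivAt f
    (C * (((1 + (sq (mob e₀ z) ^ 2)⁻¹) / 2) * ((2 * sq (mob e₀ z))⁻¹ *
      (e₀ * (v₀ - conj v₀) / (1 - e₀ * z) ^ 2)))) z := by
  have h1 := hasDerivAt_mob norm_e₀ hz
  have him := mob_im norm_e₀ hz
  have h2 := (hasDerivAt_sq him).comp z h1
  have h3 := (hasDerivAt_W (quad_ne (sq_mem him))).comp z h2
  exact (h3.sub_const W₀).const_mul (C : ℂ)

lemma f_diff : DifferentiableOn ℂ f (ball 0 1) := fun z hz =>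
  (hasDerivAt_f (by simpa using hz)).differentiableAt.differentiableWithinAt

lemma sq_v₀ : sq v₀ = m₀ := by
  rw [← m₀_sq]
  exact sq_of_quad m₀_mem

lemma f_zero : f 0 = 0 := by
  unfold f
  rw [mob_zero, sq_v₀]
  unfold W₀
  ring

lemma f_deriv : deriv f 0 = 1 := by
  rw [(hasDerivAt_f (z := 0) (by simp)).deriv, mob_zero, sq_v₀]
  refine Eq.trans ?_ e₀_mul
  rw [mul_zero, sub_zero, one_pow, div_one]
  unfold D₀
  ring

lemma f_inj : InjOn f (ball 0 1) := by
  intro z hz w hw h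
  rw [mem_ball_zero_iff] at hz hw
  have hC : (C : ℂ) ≠ 0 := by exact_mod_cast C_pos.ne'
  unfold f at h
  have h1 := mul_left_cancel₀ hC h
  have h2 : W (sq (mob e₀ z)) = W (sq (mob e₀ w)) := by linear_combination h1
  have i1 := mob_im norm_e₀ hz
  have i2 := mob_im norm_e₀ hw
  have h3 := W_injOn (sq_mem i1) (sq_mem i2) h2
  have h4 : mob e₀ z = mob e₀ w := by
    rw [← sq_sq (v := mob e₀ z) (by intro h; rw [h] at i1; simp at i1),
      ← sq_sq (v := mob e₀ w) (by intro h; rw [h] at i2; simp at i2), h3]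
  rw [← bom_mob norm_e₀ hz, ← bom_mob norm_e₀ hw, h4]

/-- the point of the disc over the point `m` of the quadrant -/
lemma f_bom {m : ℂ} (hm : m ∈ quad) : f (bom e₀ (m ^ 2)) = C * (W m - W₀) := by
  unfold f
  rw [mob_bom norm_e₀ (sq_im_pos hm), sq_of_quad hm]

/-- the image of the disc -/
lemma image_f : f '' ball 0 1 = {w | ∃ u ∈ Ω, w = C * (u - W₀)} := by
  ext w
  constructor
  · rintro ⟨z, hz, rfl⟩
    rw [mem_ball_zero_iff] at hz
    exact ⟨_, W_mem (sq_mem (mob_im norm_e₀ hz)), rfl⟩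
  · rintro ⟨u, hu, rfl⟩
    obtain ⟨m, hm, rfl⟩ := W_surj hu
    refine ⟨bom e₀ (m ^ 2), ?_, f_bom hm⟩
    rw [mem_ball_zero_iff]
    exact bom_lt norm_e₀ (sq_im_pos hm)

/-! ### the geometry of the image -/

lemma normSq_m₀ : normSq m₀ = 101 / 10000 := by
  rw [normSq_apply]
  unfold m₀
  norm_num

lemma W₀_re : W₀.re = -(9899 / 2020) := by
  unfold W₀
  rw [W_re, normSq_m₀]
  unfold m₀
  norm_num

lemma W₀_im : W₀.im = 10101 / 20200 := by
  unfold W₀
  rw [W_im, normSq_m₀]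
  unfold m₀
  norm_num

lemma mem_image {w : ℂ} : w ∈ f '' ball 0 1 ↔ 0 < w.im / C + W₀.im ∧
    ¬ (w.re / C + W₀.re = 0 ∧ 1 ≤ w.im / C + W₀.im) := by
  rw [image_f]
  have hC := C_pos
  have hC' : (C : ℂ) ≠ 0 := by exact_mod_cast hC.ne'
  have key : (∃ u ∈ Ω, w = C * (u - W₀)) ↔ w / C + W₀ ∈ Ω := by
    constructor
    · rintro ⟨u, hu, rfl⟩
      rw [mul_div_cancel_left₀ _ hC', sub_add_cancel]
      exact hu
    · intro h
      refine ⟨_, h, ?_⟩
      field_simp
      ring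
  rw [Set.mem_ofPred_eq, key]
  unfold Ω
  rw [Set.mem_ofPred_eq, add_re, add_im, div_ofReal_re, div_ofReal_im]

lemma cia_image : CIA (f '' ball 0 1) := by
  intro c
  apply Convex.isPreconnected
  rintro x ⟨hx, hxc⟩ y ⟨hy, hyc⟩ a b ha hb hab
  rw [mem_image] at hx hy
  rw [Set.mem_ofPred_eq] at hxc hyc
  have hC := C_pos
  have hre : (a • x + b • y).re = c := by
    simp only [add_re, real_smul, re_ofReal_mul]
    rw [hxc, hyc, ← add_mul, hab, one_mul]
  have him : (a • x + b • y).im = a * x.im + b * y.im := by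
    simp only [add_im, real_smul, im_ofReal_mul]
  have e : (a * x.im + b * y.im) / C + W₀.im = a * (x.im / C + W₀.im) + b * (y.im / C + W₀.im) := by
    have : a * (x.im / C + W₀.im) + b * (y.im / C + W₀.im) =
        (a * x.im + b * y.im) / C + (a + b) * W₀.im := by ring
    rw [this, hab, one_mul]
  refine ⟨?_, hre⟩
  rw [mem_image, him, hre, e]
  rw [hxc] at hx
  rw [hyc] at hy
  refine ⟨?_, ?_⟩
  · rcases eq_or_lt_of_le ha with h | h
    · have : b = 1 := by linarith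
      rw [← h, this]
      linarith [hy.1]
    · have := mul_pos h hx.1
      have := mul_nonneg hb hy.1.le
      linarith
  · rintro ⟨h1, h2⟩
    have h3 : x.im / C + W₀.im < 1 := by
      by_contra hcon
      push Not at hcon
      exact hx.2 ⟨h1, hcon⟩
    have h4 : y.im / C + W₀.im < 1 := by
      by_contra hcon
      push Not at hcon
      exact hy.2 ⟨h1, hcon⟩
    rcases eq_or_lt_of_le ha with h | h
    · have : b = 1 := by linarith
      rw [← h, this] at h2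
      linarith
    · have a1 := mul_lt_mul_of_pos_left h3 h
      have a2 := mul_le_mul_of_nonneg_left h4.le hb
      linarith

/-! ### the slit condition -/

def upper : Set ℂ := {w | w ∈ f '' ball 0 1 ∧ 0 < w.im}

def lower : Set ℂ := {w | w ∈ f '' ball 0 1 ∧ w.im < 0}

lemma upper_pre : IsPreconnected upper := by
  have hC := C_pos
  have hi := W₀_im
  have hr := W₀_re
  let P : ℂ := ⟨C * (9899 / 2020), C * (3 / 4 - 10101 / 20200)⟩
  have hPre : P.re / C + W₀.re = 0 := by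
    show C * (9899 / 2020) / C + W₀.re = 0
    rw [mul_div_cancel_left₀ _ hC.ne', hr]
    norm_num
  have hPim : P.im / C + W₀.im = 3 / 4 := by
    show C * (3 / 4 - 10101 / 20200) / C + W₀.im = 3 / 4
    rw [mul_div_cancel_left₀ _ hC.ne', hi]
    norm_num
  have hPpos : 0 < P.im := by
    show 0 < C * (3 / 4 - 10101 / 20200)
    apply mul_pos hC
    norm_num
  have hP : P ∈ upper := by
    refine ⟨mem_image.mpr ⟨?_, ?_⟩, hPpos⟩
    · rw [hPim]; norm_num
    · rintro ⟨-, h⟩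
      rw [hPim] at h
      norm_num at h
  have hstar : StarConvex ℝ P upper := by
    rintro y ⟨hy, hyi⟩ a b ha hb hab
    rw [mem_image] at hy
    have hre : (a • P + b • y).re / C + W₀.re = b * (y.re / C + W₀.re) := by
      simp only [add_re, real_smul, re_ofReal_mul]
      have : (a * P.re + b * y.re) / C + W₀.re =
          a * (P.re / C + W₀.re) + b * (y.re / C + W₀.re) + (1 - (a + b)) * W₀.re := by ring
      rw [this, hab, hPre]
      ring
    have him : (a • P + b • y).im = a * P.im + b * y.im := by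
      simp only [add_im, real_smul, im_ofReal_mul]
    have him2 : (a • P + b • y).im / C + W₀.im = a * (3 / 4) + b * (y.im / C + W₀.im) := by
      rw [him, ← hPim]
      have : (a * P.im + b * y.im) / C + W₀.im =
          a * (P.im / C + W₀.im) + b * (y.im / C + W₀.im) + (1 - (a + b)) * W₀.im := by ring
      rw [this, hab]
      ring
    have hpos : 0 < (a • P + b • y).im := by
      rw [him]
      rcases eq_or_lt_of_le ha with h | h
      · have : b = 1 := by linarith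
        rw [← h, this]
        linarith
      · have := mul_pos h hPpos
        have := mul_nonneg hb hyi.le
        linarith
    refine ⟨mem_image.mpr ⟨?_, ?_⟩, hpos⟩
    · have : 0 < (a • P + b • y).im / C := by positivity
      rw [hi]
      linarith
    · rw [hre, him2]
      rintro ⟨h1, h2⟩
      rcases mul_eq_zero.mp h1 with h | h
      · have : a = 1 := by linarith
        rw [h, this] at h2
        norm_num at h2
      · have h3 : y.im / C + W₀.im < 1 := by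
          by_contra hcon
          push Not at hcon
          exact hy.2 ⟨h, hcon⟩
        rcases eq_or_lt_of_le hb with h4 | h4
        · have : a = 1 := by linarith
          rw [← h4, this] at h2
          norm_num at h2
        · have a1 := mul_lt_mul_of_pos_left h3 h4
          linarith
  exact (hstar.isPathConnected hP).isConnected.isPreconnected

lemma lower_pre : IsPreconnected lower := by
  have hC := C_pos
  have hi := W₀_im
  have e : lower = {w : ℂ | -(C * (10101 / 20200)) < w.im ∧ w.im < 0} := by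
    ext w
    unfold lower
    rw [Set.mem_ofPred_eq, Set.mem_ofPred_eq, mem_image, hi]
    have h1 : 0 < w.im / C + 10101 / 20200 ↔ -(C * (10101 / 20200)) < w.im := by
      rw [← sub_lt_iff_lt_add, zero_sub, lt_div_iff₀ hC]
      constructor <;> intro h <;> linarith
    constructor
    · rintro ⟨⟨h2, -⟩, h3⟩
      exact ⟨h1.mp h2, h3⟩
    · rintro ⟨h2, h3⟩
      refine ⟨⟨h1.mpr h2, ?_⟩, h3⟩
      rintro ⟨-, h4⟩
      have : w.im / C < 0 := div_neg_of_neg_of_pos h3 hC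
      linarith
  rw [e]
  apply Convex.isPreconnected
  rintro x ⟨hx1, hx2⟩ y ⟨hy1, hy2⟩ a b ha hb hab
  have him : (a • x + b • y).im = a * x.im + b * y.im := by
    simp only [add_im, real_smul, im_ofReal_mul]
  rw [Set.mem_ofPred_eq, him]
  rcases eq_or_lt_of_le ha with h | h
  · have : b = 1 := by linarith
    rw [← h, this]
    constructor <;> linarith
  · have a1 := mul_lt_mul_of_pos_left hx1 h
    have a2 := mul_lt_mul_of_pos_left hx2 h
    have a3 := mul_le_mul_of_nonneg_left hy1.le hb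
    have a4 := mul_le_mul_of_nonneg_left hy2.le hb
    have e1 : a * -(C * (10101 / 20200)) + b * -(C * (10101 / 20200)) = -(C * (10101 / 20200)) := by
      rw [← add_mul, hab, one_mul]
    constructor <;> linarith

lemma slit {w : ℂ} (hw : w ∈ f '' ball 0 1 \ {w | w.im = 0}) :
    (0 : ℂ) ∈ frontier (connectedComponentIn (f '' ball 0 1 \ {w | w.im = 0}) w) := by
  have hC := C_pos
  have hi := W₀_im
  have hr := W₀_re
  rw [frontier, Set.mem_sdiff]
  refine ⟨?_, ?_⟩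
  swap
  · intro h
    have h1 := connectedComponentIn_subset _ _ (interior_subset h)
    exact h1.2 (by simp)
  obtain ⟨hw1, hw2⟩ := hw
  rw [Set.mem_ofPred_eq] at hw2
  rcases lt_or_gt_of_ne hw2 with h | h
  · have hsub : lower ⊆ connectedComponentIn (f '' ball 0 1 \ {w | w.im = 0}) w :=
      lower_pre.subset_connectedComponentIn ⟨hw1, h⟩ (fun x hx => ⟨hx.1, ne_of_lt hx.2⟩)
    apply closure_mono hsub
    rw [Metric.mem_closure_iff]
    intro ε hε
    obtain ⟨τ, hτ⟩ : ∃ τ, τ = min (ε / 2) (C / 4) := ⟨_, rfl⟩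
    have hτ0 : 0 < τ := by rw [hτ]; positivity
    have hτ1 : τ ≤ ε / 2 := by rw [hτ]; exact min_le_left _ _
    have hτ2 : τ ≤ C / 4 := by rw [hτ]; exact min_le_right _ _
    refine ⟨((-τ : ℝ) : ℂ) * I, ⟨mem_image.mpr ⟨?_, ?_⟩, ?_⟩, ?_⟩
    · rw [im_ofReal_mul, I_im, hi, mul_one]
      have : -(1 / 4) ≤ -τ / C := by
        rw [le_div_iff₀ hC]
        linarith
      linarith
    · rw [re_ofReal_mul, I_re, hr, mul_zero, zero_div]
      rintro ⟨h5, -⟩
      norm_num at h5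
    · rw [im_ofReal_mul, I_im]
      linarith
    · rw [dist_comm, dist_zero_right, norm_mul, norm_real, norm_I, Real.norm_eq_abs, abs_neg,
        abs_of_pos hτ0]
      linarith
  · have hsub : upper ⊆ connectedComponentIn (f '' ball 0 1 \ {w | w.im = 0}) w :=
      upper_pre.subset_connectedComponentIn ⟨hw1, h⟩ (fun x hx => ⟨hx.1, ne_of_gt hx.2⟩)
    apply closure_mono hsub
    rw [Metric.mem_closure_iff]
    intro ε hε
    refine ⟨((ε / 2 : ℝ) : ℂ) * I, ⟨mem_image.mpr ⟨?_, ?_⟩, ?_⟩, ?_⟩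
    · rw [im_ofReal_mul, I_im, hi, mul_one]
      have : 0 < ε / 2 / C := by positivity
      linarith
    · rw [re_ofReal_mul, I_re, hr, mul_zero, zero_div]
      rintro ⟨h5, -⟩
      norm_num at h5
    · rw [im_ofReal_mul, I_im]
      linarith
    · rw [dist_comm, dist_zero_right, norm_mul, norm_real, norm_I, Real.norm_eq_abs,
        abs_of_pos (by positivity)]
      linarith

/-! ### the three points -/

noncomputable def q₁ : ℝ := Real.sqrt (2 / 3 - (1 / 50) ^ 2)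
noncomputable def q₂ : ℝ := Real.sqrt (1 / 3 - (1 / 200) ^ 2)
noncomputable def q₃ : ℝ := Real.sqrt (1 / 31 - (1 / 3000) ^ 2)

lemma q₁_sq : q₁ ^ 2 = 2 / 3 - (1 / 50) ^ 2 := Real.sq_sqrt (by norm_num)
lemma q₂_sq : q₂ ^ 2 = 1 / 3 - (1 / 200) ^ 2 := Real.sq_sqrt (by norm_num)
lemma q₃_sq : q₃ ^ 2 = 1 / 31 - (1 / 3000) ^ 2 := Real.sq_sqrt (by norm_num)

lemma q₁_lo : 816 / 1000 < q₁ := by
  apply Real.lt_sqrt_of_sq_lt; norm_num
lemma q₁_hi : q₁ < 817 / 1000 := by
  apply (Real.sqrt_lt' (by norm_num)).mpr; norm_num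
lemma q₂_lo : 577 / 1000 < q₂ := by
  apply Real.lt_sqrt_of_sq_lt; norm_num
lemma q₂_hi : q₂ < 578 / 1000 := by
  apply (Real.sqrt_lt' (by norm_num)).mpr; norm_num
lemma q₃_lo : 179 / 1000 < q₃ := by
  apply Real.lt_sqrt_of_sq_lt; norm_num
lemma q₃_hi : q₃ < 180 / 1000 := by
  apply (Real.sqrt_lt' (by norm_num)).mpr; norm_num

noncomputable def m₁ : ℂ := ⟨1 / 50, q₁⟩
noncomputable def m₂ : ℂ := ⟨1 / 200, q₂⟩
noncomputable def m₃ : ℂ := ⟨1 / 3000, q₃⟩

lemma m₁_mem : m₁ ∈ quad := ⟨by show (0:ℝ) < 1 / 50; norm_num, by show 0 < q₁; linarith [q₁_lo]⟩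
lemma m₂_mem : m₂ ∈ quad := ⟨by show (0:ℝ) < 1 / 200; norm_num, by show 0 < q₂; linarith [q₂_lo]⟩
lemma m₃_mem : m₃ ∈ quad := ⟨by show (0:ℝ) < 1 / 3000; norm_num, by show 0 < q₃; linarith [q₃_lo]⟩

lemma normSq_m₁ : normSq m₁ = 2 / 3 := by
  rw [normSq_apply]
  show (1 / 50 : ℝ) * (1 / 50) + q₁ * q₁ = 2 / 3
  nlinarith [q₁_sq]
lemma normSq_m₂ : normSq m₂ = 1 / 3 := by
  rw [normSq_apply]
  show (1 / 200 : ℝ) * (1 / 200) + q₂ * q₂ = 1 / 3
  nlinarith [q₂_sq]
lemma normSq_m₃ : normSq m₃ = 1 / 31 := by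
  rw [normSq_apply]
  show (1 / 3000 : ℝ) * (1 / 3000) + q₃ * q₃ = 1 / 31
  nlinarith [q₃_sq]

/-- the quantity that controls the modulus of the preimage -/
noncomputable def Q (m : ℂ) : ℝ := (m ^ 2).im / normSq (m ^ 2 - conj v₀)

lemma Q_eq (m : ℂ) : Q m = 2 * m.re * m.im /
    ((2 * m.re ^ 2 - normSq m - 99 / 10000) ^ 2 + (2 * m.re * m.im + 1 / 500) ^ 2) := by
  unfold Q
  have e1 : (m ^ 2).im = 2 * m.re * m.im := by rw [pow_two, mul_im]; ring
  have e2 : (m ^ 2).re = 2 * m.re ^ 2 - normSq m := by rw [pow_two, mul_re, normSq_apply]; ring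
  have e3 : normSq (m ^ 2 - conj v₀) =
      (2 * m.re ^ 2 - normSq m - 99 / 10000) ^ 2 + (2 * m.re * m.im + 1 / 500) ^ 2 := by
    rw [normSq_apply, sub_re, sub_im, conj_re, conj_im, e1, e2]
    unfold v₀
    ring
  rw [e1, e3]

lemma Q₁ : 6 / 100 < Q m₁ := by
  rw [Q_eq, normSq_m₁]
  show (6 / 100 : ℝ) < 2 * (1 / 50) * q₁ /
    ((2 * (1 / 50) ^ 2 - 2 / 3 - 99 / 10000) ^ 2 + (2 * (1 / 50) * q₁ + 1 / 500) ^ 2)
  rw [lt_div_iff₀ (by positivity)]
  nlinarith [q₁_lo, q₁_hi]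

lemma Q₂ : Q m₂ < 6 / 100 := by
  rw [Q_eq, normSq_m₂]
  show 2 * (1 / 200) * q₂ /
    ((2 * (1 / 200) ^ 2 - 1 / 3 - 99 / 10000) ^ 2 + (2 * (1 / 200) * q₂ + 1 / 500) ^ 2) < (6 / 100 : ℝ)
  rw [div_lt_iff₀ (by positivity)]
  nlinarith [q₂_lo, q₂_hi]

lemma Q₃ : 6 / 100 < Q m₃ := by
  rw [Q_eq, normSq_m₃]
  show (6 / 100 : ℝ) < 2 * (1 / 3000) * q₃ /
    ((2 * (1 / 3000) ^ 2 - 1 / 31 - 99 / 10000) ^ 2 + (2 * (1 / 3000) * q₃ + 1 / 500) ^ 2)
  rw [lt_div_iff₀ (by positivity)]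
  nlinarith [q₃_lo, q₃_hi]

lemma norm_lt {m n : ℂ} (hm : m ∈ quad) (hn : n ∈ quad) (h : Q n < Q m) :
    ‖bom e₀ (m ^ 2)‖ < ‖bom e₀ (n ^ 2)‖ := by
  have h1 := bom_norm norm_e₀ (sq_im_pos hm)
  have h2 := bom_norm norm_e₀ (sq_im_pos hn)
  apply lt_of_pow_lt_pow_left₀ 2 (norm_nonneg _)
  rw [h1, h2]
  unfold Q at h
  linarith

lemma W₁ : W m₁ = ⟨-(1 / 200), q₁ * (5 / 2) / 2⟩ := by
  apply Complex.ext
  · rw [W_re, normSq_m₁]
    show (1 / 50 : ℝ) * (1 - 1 / (2 / 3)) / 2 = -(1 / 200)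
    norm_num
  · rw [W_im, normSq_m₁]
    show q₁ * (1 + 1 / (2 / 3)) / 2 = q₁ * (5 / 2) / 2
    norm_num

lemma W₂ : W m₂ = ⟨-(1 / 200), q₂ * 4 / 2⟩ := by
  apply Complex.ext
  · rw [W_re, normSq_m₂]
    show (1 / 200 : ℝ) * (1 - 1 / (1 / 3)) / 2 = -(1 / 200)
    norm_num
  · rw [W_im, normSq_m₂]
    show q₂ * (1 + 1 / (1 / 3)) / 2 = q₂ * 4 / 2
    norm_num

lemma W₃ : W m₃ = ⟨-(1 / 200), q₃ * 32 / 2⟩ := by
  apply Complex.ext
  · rw [W_re, normSq_m₃]
    show (1 / 3000 : ℝ) * (1 - 1 / (1 / 31)) / 2 = -(1 / 200)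
    norm_num
  · rw [W_im, normSq_m₃]
    show q₃ * (1 + 1 / (1 / 31)) / 2 = q₃ * 32 / 2
    norm_num

lemma not_cia : ¬ CIA (f '' ball 0 ‖bom e₀ (m₂ ^ 2)‖) := by
  intro H
  have hC := C_pos
  have hp := H (C * (-(1 / 200) - W₀.re))
  have him := (hp.image im continuous_im.continuousOn).ordConnected
  have mk : ∀ {m : ℂ} {y : ℝ}, m ∈ quad → W m = ⟨-(1 / 200), y⟩ →
      (f (bom e₀ (m ^ 2))).re = C * (-(1 / 200) - W₀.re) ∧
      (f (bom e₀ (m ^ 2))).im = C * (y - W₀.im) := by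
    intro m y hm hW
    rw [f_bom hm, re_ofReal_mul, im_ofReal_mul, sub_re, sub_im, hW]
    exact ⟨rfl, rfl⟩
  obtain ⟨r1, i1⟩ := mk m₁_mem W₁
  obtain ⟨r2, i2⟩ := mk m₂_mem W₂
  obtain ⟨r3, i3⟩ := mk m₃_mem W₃
  have mem1 : f (bom e₀ (m₁ ^ 2)) ∈ f '' ball 0 ‖bom e₀ (m₂ ^ 2)‖ ∩
      {w | w.re = C * (-(1 / 200) - W₀.re)} := by
    refine ⟨⟨_, ?_, rfl⟩, r1⟩
    rw [mem_ball_zero_iff]
    exact norm_lt m₁_mem m₂_mem (Q₂.trans Q₁)
  have mem3 : f (bom e₀ (m₃ ^ 2)) ∈ f '' ball 0 ‖bom e₀ (m₂ ^ 2)‖ ∩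
      {w | w.re = C * (-(1 / 200) - W₀.re)} := by
    refine ⟨⟨_, ?_, rfl⟩, r3⟩
    rw [mem_ball_zero_iff]
    exact norm_lt m₃_mem m₂_mem (Q₂.trans Q₃)
  have h12 : q₁ * (5 / 2) / 2 ≤ q₂ * 4 / 2 := by linarith [q₁_hi, q₂_lo]
  have h23 : q₂ * 4 / 2 ≤ q₃ * 32 / 2 := by linarith [q₂_hi, q₃_lo]
  have hmem : (f (bom e₀ (m₂ ^ 2))).im ∈ im '' (f '' ball 0 ‖bom e₀ (m₂ ^ 2)‖ ∩
      {w | w.re = C * (-(1 / 200) - W₀.re)}) := by
    apply him.out ⟨_, mem1, rfl⟩ ⟨_, mem3, rfl⟩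
    rw [i1, i2, i3]
    constructor
    · apply mul_le_mul_of_nonneg_left _ hC.le
      linarith
    · apply mul_le_mul_of_nonneg_left _ hC.le
      linarith
  obtain ⟨w, ⟨⟨z, hz, hzw⟩, hw2⟩, hw3⟩ := hmem
  have e : w = f (bom e₀ (m₂ ^ 2)) := by
    apply Complex.ext
    · rw [r2]; exact hw2
    · exact hw3
  rw [mem_ball_zero_iff] at hz
  have hlt := bom_lt norm_e₀ (sq_im_pos m₂_mem)
  have h2 : z = bom e₀ (m₂ ^ 2) := by
    apply f_inj
    · rw [mem_ball_zero_iff]; linarith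
    · rw [mem_ball_zero_iff]; exact hlt
    · rw [hzw, e]
  rw [h2] at hz
  exact lt_irrefl _ hz

/-- There is a normalised univalent `f` on the disc such that `G₁ = f(𝔻)` is convex in the
direction of the imaginary axis, every component of `G₁ \ ℝ` has `0` on its boundary, and
`G_r = f({|z|<r})` is not convex in the direction of the imaginary axis for some `r ∈ (0,1)`. -/
theorem result : ∃ f : ℂ → ℂ, DifferentiableOn ℂ f (ball 0 1) ∧ InjOn f (ball 0 1) ∧ f 0 = 0 ∧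
    deriv f 0 = 1 ∧ CIA (f '' ball 0 1) ∧
    (∀ w ∈ f '' ball 0 1 \ {w | w.im = 0},
      (0 : ℂ) ∈ frontier (connectedComponentIn (f '' ball 0 1 \ {w | w.im = 0}) w)) ∧
    ∃ r : ℝ, 0 < r ∧ r < 1 ∧ ¬ CIA (f '' ball 0 r) := by
  refine ⟨f, f_diff, f_inj, f_zero, f_deriv, cia_image, fun w hw => slit hw,
    ‖bom e₀ (m₂ ^ 2)‖, ?_, bom_lt norm_e₀ (sq_im_pos m₂_mem), not_cia⟩
  exact (norm_nonneg _).trans_lt (norm_lt m₁_mem m₂_mem (Q₂.trans Q₁))

end Pool.Agent.Results.MP_d2819f_an.SlitNotEnough
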